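import Mathlib
import Pool.Agent.V11309.PrimeAP

/-! For every `n` there is `m` coprime to `n` with `m n ∣ C(m + n)`. -/

set_option autoImplicit false

namespace Pool.Agent.Results.MP_558b4e_nt.Nonempty

open Filter Topology Finset

/-- a lower bound for the number of carries (Kummer) -/
lemma carry_lower (q N : ℕ) (hq : q.Prime) (T : Finset ℕ)
    (hT : ∀ i ∈ T, 1 ≤ i ∧ q ^ i ≤ N % q ^ i + N % q ^ i) :
    T.card ≤ (Nat.centralBinom N).factorization q := by
  have h := Nat.factorization_choose' (p := q) (n := N) (k := N) (b := Nat.log q (N + N) + 1) hq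
    (by omega)
  have e : (N + N).choose N = Nat.centralBinom N := by
    rw [Nat.centralBinom_eq_two_mul_choose, two_mul]
  rw [e] at h
  rw [h]
  apply card_le_card
  intro i hi
  obtain ⟨h1, h2⟩ := hT i hi
  rw [mem_filter, mem_Ico]
  refine ⟨⟨h1, ?_⟩, h2⟩
  have h3 : N % q ^ i ≤ N := Nat.mod_le _ _
  have h4 : q ^ i ≤ N + N := by omega
  have := Nat.le_log_of_pow_le hq.one_lt h4
  omega

/-- the conditions on the two primes -/
theorem key (n p r : ℕ) (hn : 1 ≤ n) (hp : p.Prime) (hr : r.Prime) (h1 : n + 1 < r)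
    (h2 : r + n + 1 ≤ p) (h3 : p + n + 1 ≤ 2 * r) (h4 : 3 * r ≤ 2 * p)
    (hM : n ^ (2 * n + 4) ∣ p * r + (2 * n + 1)) :
    0 < p * r ∧ Nat.Coprime (p * r) n ∧ p * r * n ∣ catalan (p * r + n) := by
  have hp0 := hp.pos
  have hr0 := hr.pos
  have hcop_p : Nat.Coprime p n := (Nat.Prime.coprime_iff_not_dvd hp).2 fun h => by
    have := Nat.le_of_dvd (by omega) h; omega
  have hcop_r : Nat.Coprime r n := (Nat.Prime.coprime_iff_not_dvd hr).2 fun h => by
    have := Nat.le_of_dvd (by omega) h; omega
  have hcop : Nat.Coprime (p * r) n := Nat.Coprime.mul_left hcop_p hcop_r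
  refine ⟨Nat.mul_pos hp0 hr0, hcop, ?_⟩
  set N := p * r + n with hN
  have hpr0 : 0 < p * r := Nat.mul_pos hp0 hr0
  -- it suffices to show that `p r n (N + 1)` divides the central binomial coefficient
  suffices hdiv : (N + 1) * (p * r * n) ∣ Nat.centralBinom N by
    rw [← succ_mul_catalan_eq_centralBinom] at hdiv
    exact Nat.dvd_of_mul_dvd_mul_left (by omega) hdiv
  have hcb : Nat.centralBinom N ≠ 0 := (Nat.centralBinom_pos N).ne'
  have hN1 : N + 1 ≠ 0 := by omega
  have hprn : p * r * n ≠ 0 := by positivity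
  rw [← Nat.factorization_le_iff_dvd (mul_ne_zero hN1 hprn) hcb]
  have hpn : p ≠ r := by omega
  have hbase : N + 1 ∣ Nat.centralBinom N := by
    rw [← succ_mul_catalan_eq_centralBinom]; exact dvd_mul_right _ _
  rw [Finsupp.le_def]
  intro l
  rw [Nat.factorization_mul hN1 hprn, Finsupp.add_apply]
  by_cases hl : l.Prime
  swap
  · rw [Nat.factorization_eq_zero_of_not_prime _ hl, Nat.factorization_eq_zero_of_not_prime _ hl]
    omega
  by_cases hlp : l ∣ p * r * n
  swap
  · rw [Nat.factorization_eq_zero_of_not_dvd hlp, add_zero]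
    exact (Nat.factorization_le_iff_dvd hN1 hcb).2 hbase l
  rw [Nat.factorization_mul hpr0.ne' (by omega), Nat.factorization_mul hp0.ne' hr0.ne',
    Finsupp.add_apply, Finsupp.add_apply]
  rcases (Nat.Prime.dvd_mul hl).1 hlp with hlp | hln
  · -- one of the two primes
    have hl' : l = p ∨ l = r := by
      rcases (Nat.Prime.dvd_mul hl).1 hlp with h | h
      · exact Or.inl ((Nat.prime_dvd_prime_iff_eq hl hp).1 h)
      · exact Or.inr ((Nat.prime_dvd_prime_iff_eq hl hr).1 h)
    have hln : ¬ l ∣ n := by
      rcases hl' with h | h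
      · subst h; exact (Nat.Prime.coprime_iff_not_dvd hp).1 hcop_p
      · subst h; exact (Nat.Prime.coprime_iff_not_dvd hr).1 hcop_r
    have hlN : ¬ l ∣ N + 1 := by
      intro h
      have h5 : l ∣ p * r := hlp
      have h6 : l ∣ n + 1 := by
        have : N + 1 = p * r + (n + 1) := by omega
        rw [this] at h
        exact (Nat.dvd_add_right h5).1 h
      have := Nat.le_of_dvd (by omega) h6
      rcases hl' with h | h <;> omega
    rw [Nat.factorization_eq_zero_of_not_dvd hln, Nat.factorization_eq_zero_of_not_dvd hlN]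
    have hone : p.factorization l + r.factorization l = 1 := by
      rcases hl' with h | h
      · subst h
        rw [hp.factorization_self, Nat.factorization_eq_zero_of_not_dvd]
        intro hd
        exact hpn ((Nat.prime_dvd_prime_iff_eq hp hr).1 hd)
      · subst h
        rw [hr.factorization_self, Nat.factorization_eq_zero_of_not_dvd]
        intro hd
        exact hpn ((Nat.prime_dvd_prime_iff_eq hr hp).1 hd).symm
    have hT : ({2} : Finset ℕ).card ≤ (Nat.centralBinom N).factorization l := by
      apply carry_lower l N hl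
      intro i hi
      rw [mem_singleton] at hi
      subst hi
      refine ⟨by norm_num, ?_⟩
      rcases hl' with h | h
      · subst h
        have hlt : N < l ^ 2 := by
          rw [hN, pow_two]
          have : l * (r + n + 1) ≤ l * l := Nat.mul_le_mul_left _ h2
          nlinarith
        rw [Nat.mod_eq_of_lt hlt, hN, pow_two]
        have : l * l ≤ l * (2 * r) := Nat.mul_le_mul_left _ (by omega)
        nlinarith
      · subst h
        obtain ⟨s, hs⟩ : ∃ s, p = l + s := ⟨p - l, by omega⟩
        have e : N = (s * l + n) + l ^ 2 * 1 := by rw [hN, hs]; ring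
        have hlt : s * l + n < l ^ 2 := by
          rw [pow_two]
          have : (s + n + 1) * l ≤ l * l := Nat.mul_le_mul_right _ (by omega)
          nlinarith
        rw [e, Nat.add_mul_mod_self_left, Nat.mod_eq_of_lt hlt, pow_two]
        have : l * l ≤ (2 * s) * l := Nat.mul_le_mul_right _ (by omega)
        nlinarith
    rw [card_singleton] at hT
    omega
  · -- a prime divisor of `n`
    have hlpr : ¬ l ∣ p * r := by
      intro h
      have := Nat.Coprime.eq_one_of_dvd (Nat.Coprime.coprime_dvd_left h hcop) hln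
      exact hl.one_lt.ne' this
    have hlp' : ¬ l ∣ p := fun h => hlpr (dvd_mul_of_dvd_left h r)
    have hlr' : ¬ l ∣ r := fun h => hlpr (dvd_mul_of_dvd_right h p)
    rw [Nat.factorization_eq_zero_of_not_dvd hlp', Nat.factorization_eq_zero_of_not_dvd hlr']
    set a := n.factorization l with ha
    have ha1 : 1 ≤ a := (Nat.Prime.factorization_pos_of_dvd hl (by omega) hln)
    have hdvdn : l ^ a ∣ n := Nat.ordProj_dvd n l
    have hMN : n ^ (2 * n + 4) ∣ N + (n + 1) := by
      have : N + (n + 1) = p * r + (2 * n + 1) := by omega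
      rw [this]; exact hM
    have hpow : ∀ i, i ≤ a * (2 * n + 4) → l ^ i ∣ N + (n + 1) := by
      intro i hi
      refine dvd_trans ?_ hMN
      refine dvd_trans (pow_dvd_pow l hi) ?_
      rw [pow_mul]
      exact pow_dvd_pow_of_dvd hdvdn _
    -- the valuation of `N + 1`
    have hvN : (N + 1).factorization l ≤ a := by
      by_contra hcon
      push Not at hcon
      have h5 : l ^ (a + 1) ∣ N + 1 := (hl.pow_dvd_iff_le_factorization hN1).2 hcon
      have h6 : l ^ (a + 1) ∣ N + (n + 1) := hpow _ (by nlinarith)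
      have h7 : l ^ (a + 1) ∣ n := by
        have : N + (n + 1) = (N + 1) + n := by omega
        rw [this] at h6
        exact (Nat.dvd_add_right h5).1 h6
      have h8 := (hl.pow_dvd_iff_le_factorization (by omega)).1 h7
      omega
    have hT : (Finset.Icc (2 * n + 2) (a * (2 * n + 4))).card ≤
        (Nat.centralBinom N).factorization l := by
      apply carry_lower l N hl
      intro i hi
      rw [Finset.mem_Icc] at hi
      refine ⟨by omega, ?_⟩
      have h5 := hpow i hi.2
      have h6 : 2 * (n + 1) ≤ l ^ i := by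
        calc 2 * (n + 1) ≤ i := by omega
          _ ≤ 2 ^ i := Nat.lt_two_pow_self.le
          _ ≤ l ^ i := Nat.pow_le_pow_left hl.two_le i
      have h7 : l ^ i ∣ N % l ^ i + (n + 1) := by
        have := Nat.mod_add_div N (l ^ i)
        have h8 : N + (n + 1) = (N % l ^ i + (n + 1)) + l ^ i * (N / l ^ i) := by omega
        rw [h8] at h5
        exact (Nat.dvd_add_left (dvd_mul_right _ _)).1 h5
      have h9 := Nat.le_of_dvd (by positivity) h7
      generalize N % l ^ i = t at *
      omega
    rw [Nat.card_Icc] at hT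
    have : a * (2 * n + 4) = 2 * a + a * (2 * n + 2) := by ring
    have h5 : 2 * n + 2 ≤ a * (2 * n + 2) := Nat.le_mul_of_pos_left _ ha1
    omega

/-- **Answer to Q1: yes.** -/
theorem result (n : ℕ) (hn : 0 < n) :
    ∃ m : ℕ, 0 < m ∧ Nat.gcd m n = 1 ∧ m * n ∣ catalan (m + n) := by
  set M := n ^ (2 * n + 4) with hM
  have hM0 : 0 < M := by positivity
  have : NeZero M := ⟨hM0.ne'⟩
  have hunit : IsUnit ((-(2 * n + 1 : ℕ) : ℤ) : ZMod M) := by
    have hc : Nat.Coprime (2 * n + 1) M := by
      rw [hM]
      apply Nat.Coprime.pow_right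
      rw [Nat.coprime_comm]
      have : Nat.Coprime n (n * 2 + 1) := by simp
      rwa [mul_comm] at this
    have h1 : IsUnit (((2 * n + 1 : ℕ)) : ZMod M) := (ZMod.isUnit_iff_coprime _ _).2 hc
    push_cast at h1 ⊢
    exact h1.neg
  have e1 := Pool.Agent.V11309.PrimeAP.prime_in_interval hunit 1.7 1.8 (by norm_num) (by norm_num)
  have e2 := Pool.Agent.V11309.PrimeAP.prime_in_interval (q := M) (a := 1) isUnit_one 1 1.1
    (by norm_num) (by norm_num)
  obtain ⟨x, ⟨p, hp, hp1, hp2, hp3⟩, ⟨r, hr, hr1, hr2, hr3⟩, hx⟩ :=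
    (e1.and (e2.and (eventually_ge_atTop (10 * ((n : ℝ) + 1))))).exists
  have hn0 : (0 : ℝ) ≤ n := by positivity
  have hk := key n p r hn hp hr
    (by
      have : ((n + 1 : ℕ) : ℝ) < r := by push_cast; linarith
      exact_mod_cast this)
    (by
      have : ((r + n + 1 : ℕ) : ℝ) ≤ p := by push_cast; linarith
      exact_mod_cast this)
    (by
      have : ((p + n + 1 : ℕ) : ℝ) ≤ ((2 * r : ℕ) : ℝ) := by push_cast; linarith
      exact_mod_cast this)
    (by
      have : ((3 * r : ℕ) : ℝ) ≤ ((2 * p : ℕ) : ℝ) := by push_cast; linarith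
      exact_mod_cast this)
    (by
      rw [← hM, ← ZMod.natCast_eq_zero_iff]
      push_cast
      rw [hp3, hr3]
      push_cast
      ring)
  exact ⟨p * r, hk.1, hk.2.1, hk.2.2⟩

end Pool.Agent.Results.MP_558b4e_nt.Nonempty
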